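import Pool.Agent.MP_31805c_co.H93.Main
import Pool.Agent.MP_31805c_co.H47.Planar

namespace Pool.Agent.Results.MP_31805c_co.Classification

open Pool.Agent.MP_31805c_co.H93

theorem result (V : Type) [Fintype V] [DecidableEq V] (G : SimpleGraph V) [DecidableRel G.Adj]
    (hG : IsPlanar G) (hd : ∀ v, 2 ≤ G.degree v) :
    2 * iDom G = Fintype.card V ↔ Built G Finset.univ :=
  ⟨built_of hG hd (Or.inr (Pool.Agent.MP_31805c_co.H47.twoLe_of_planar hG hd)), of_built⟩

end Pool.Agent.Results.MP_31805c_co.Classification
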